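import Pool.Agent.L0h5.MR.Roots
import Pool.Agent.Helper256.KM.Mertens

/-!
# Mertens' theorem for the roots of a polynomial modulo the primes
-/

set_option autoImplicit false

namespace Pool.Agent.L0h5.MR

open Polynomial NumberField Pool.Agent.H921R2.TatePole Filter Topology

/-- the primes up to `y` -/
def pr (y : ℕ) : Finset ℕ := (Finset.Icc 1 y).filter Nat.Prime

/-- the primes up to `y` -/
def prS (y : ℕ) : Finset Nat.Primes := (Finset.Icc 1 y).subtype Nat.Prime

lemma sum_prS (y : ℕ) (f : ℕ → ℝ) : ∑ p ∈ prS y, f p = ∑ p ∈ pr y, f p :=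
  Finset.sum_subtype_eq_sum_filter (fun p => f p)

lemma one_sub_rpow {p : ℕ} (hp : 1 ≤ p) {u : ℝ} (hu : 0 ≤ u) :
    0 ≤ 1 / (p : ℝ) - (p : ℝ) ^ (-(1 + u)) ∧
    1 / (p : ℝ) - (p : ℝ) ^ (-(1 + u)) ≤ Real.log p / p * u := by
  have hp0 : (0 : ℝ) < p := by exact_mod_cast hp
  have hp1 : (1 : ℝ) ≤ p := by exact_mod_cast hp
  have e : (p : ℝ) ^ (-(1 + u)) = 1 / (p : ℝ) * Real.exp (-(Real.log p * u)) := by
    rw [neg_add, Real.rpow_add hp0, Real.rpow_neg_one, Real.rpow_def_of_pos hp0, one_div]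
    congr 2
    ring
  have hl : 0 ≤ Real.log p := Real.log_nonneg hp1
  rw [e]
  have h1 : Real.exp (-(Real.log p * u)) ≤ 1 := Real.exp_le_one_iff.2 (by
    have := mul_nonneg hl hu
    linarith)
  have h2 := Real.add_one_le_exp (-(Real.log p * u))
  have h3 : 0 ≤ 1 / (p : ℝ) := by positivity
  constructor
  · nlinarith
  · have h4 : 1 / (p : ℝ) * (1 - Real.exp (-(Real.log p * u))) ≤ 1 / (p : ℝ) * (Real.log p * u) :=
      mul_le_mul_of_nonneg_left (by linarith) h3
    calc 1 / (p : ℝ) - 1 / (p : ℝ) * Real.exp (-(Real.log p * u))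
        = 1 / (p : ℝ) * (1 - Real.exp (-(Real.log p * u))) := by ring
      _ ≤ 1 / (p : ℝ) * (Real.log p * u) := h4
      _ = _ := by ring

/-- from the sums over all primes to the sums up to `y` -/
lemma trunc {g : ℕ → ℝ} {D : ℝ} (hg : ∀ p : ℕ, p.Prime → |g p| ≤ D)
    (hB : Bdd (fun x => ∑' p : Nat.Primes, g p * w x p)) :
    ∃ C : ℝ, ∀ y : ℕ, 3 ≤ y → |∑ p ∈ pr y, g p / p| ≤ C := by
  have hD : 0 ≤ D := (abs_nonneg _).trans (hg 2 Nat.prime_two)
  obtain ⟨C1, h1⟩ := hB
  obtain ⟨C2, h2⟩ := W_sub_Lam_bdd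
  obtain ⟨C3, h3⟩ := Pool.Agent.Helper256.KM.mertens_log
  obtain ⟨C4, h4⟩ := Pool.Agent.Helper256.KM.mertens_inv
  have h12 := h1.and h2
  rw [eventually_nhdsWithin_iff, Metric.eventually_nhds_iff] at h12
  obtain ⟨ε, hε, h12⟩ := h12
  obtain ⟨y0, hy0⟩ : ∃ y0 : ℕ, ∀ y : ℕ, y0 ≤ y → 1 / Real.log y < ε := by
    have ht : Tendsto (fun y : ℕ => 1 / Real.log y) atTop (𝓝 0) := by
      have := (Real.tendsto_log_atTop.comp tendsto_natCast_atTop_atTop).inv_tendsto_atTop
      refine this.congr fun y => ?_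
      simp
    have := ht.eventually (gt_mem_nhds hε)
    rw [eventually_atTop] at this
    exact this
  have hC3 : 0 ≤ C3 := (abs_nonneg _).trans (h3 1 le_rfl)
  have hC4 : 0 ≤ C4 := (abs_nonneg _).trans (h4 3 le_rfl)
  -- the small values
  have hsmall : ∀ y : ℕ, |∑ p ∈ pr y, g p / p| ≤ D * y := by
    intro y
    refine (Finset.abs_sum_le_sum_abs _ _).trans ?_
    have e1 : ∀ p ∈ pr y, |g p / p| ≤ D := by
      intro p hp
      have hpp : p.Prime := (Finset.mem_filter.1 hp).2
      have hp1 : (1 : ℝ) ≤ p := by exact_mod_cast hpp.one_lt.le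
      rw [abs_div, abs_of_nonneg (by linarith : (0 : ℝ) ≤ p)]
      exact (div_le_self (abs_nonneg _) hp1).trans (hg p hpp)
    refine (Finset.sum_le_sum e1).trans ?_
    rw [Finset.sum_const, nsmul_eq_mul, mul_comm]
    refine mul_le_mul_of_nonneg_left ?_ hD
    have : (pr y).card ≤ y := (Finset.card_filter_le _ _).trans (by simp)
    exact_mod_cast this
  refine ⟨D * y0 + (|C1| + D * (1 + C3) + D * (|C2| + C4 + (1 + C3))), fun y hy => ?_⟩
  have hnn : 0 ≤ |C1| + D * (1 + C3) + D * (|C2| + C4 + (1 + C3)) := by positivity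
  rcases Nat.lt_or_ge y y0 with hyy | hyy
  · have e1 := hsmall y
    have e2 : (y : ℝ) ≤ y0 := by exact_mod_cast hyy.le
    have e3 := mul_le_mul_of_nonneg_left e2 hD
    linarith
  have hyr : (3 : ℝ) ≤ y := by exact_mod_cast hy
  have hl1 : 1 < Real.log y := by
    rw [Real.lt_log_iff_exp_lt (by linarith)]
    have := Real.exp_one_lt_d9
    linarith
  set u : ℝ := 1 / Real.log y with hu
  have hu0 : 0 < u := by positivity
  have hx := h12 (y := 1 + u) (by
    rw [Real.dist_eq]
    simp only [add_sub_cancel_left]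
    rw [abs_of_pos hu0]
    exact hy0 y hyy) (by simpa using hu0)
  obtain ⟨hx1, hx2⟩ := hx
  have hx1 : |∑' p : Nat.Primes, g p * w (1 + u) p| ≤ C1 := hx1
  have hx2 : |W (1 + u) - Lam (1 + u)| ≤ C2 := hx2
  have hxx : (1 : ℝ) < 1 + u := by linarith
  -- the difference
  have hδ : ∑ p ∈ pr y, (1 / (p : ℝ) - (p : ℝ) ^ (-(1 + u))) ≤ 1 + C3 := by
    have e1 : ∑ p ∈ pr y, (1 / (p : ℝ) - (p : ℝ) ^ (-(1 + u))) ≤
        ∑ p ∈ pr y, Real.log p / p * u :=
      Finset.sum_le_sum fun p hp => (one_sub_rpow (Finset.mem_filter.1 hp).2.one_lt.le hu0.le).2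
    rw [← Finset.sum_mul] at e1
    have e2 := (abs_le.1 (h3 y (by omega))).2
    have e3 : ∑ p ∈ pr y, Real.log p / p ≤ C3 + Real.log y := by
      unfold pr
      linarith
    have e4 : (∑ p ∈ pr y, Real.log p / p) * u ≤ (C3 + Real.log y) * u :=
      mul_le_mul_of_nonneg_right e3 hu0.le
    have e5 : (C3 + Real.log y) * u = C3 * u + 1 := by
      rw [hu]
      field_simp
    have e6 : u ≤ 1 := by
      rw [hu, div_le_one (by linarith)]
      exact hl1.le
    nlinarith
  have hWs := w_summable hxx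
  have hgs : Summable (fun p : Nat.Primes => g p * w (1 + u) p) :=
    bddmul_summable hxx (f := fun p : Nat.Primes => g p) (C := D) fun p => hg p p.prop
  -- the tail of the sum of `w`
  have hWt : W (1 + u) - ∑ p ∈ pr y, (p : ℝ) ^ (-(1 + u)) ≤ |C2| + C4 + (1 + C3) := by
    have e1 := (abs_le.1 hx2).2
    have e2 : Lam (1 + u) = Real.log (Real.log y) := by
      unfold Lam
      rw [hu]
      simp
    have e3 := (abs_le.1 (h4 y hy)).1
    rw [Finset.sum_sub_distrib] at hδ
    have e4 := le_abs_self C2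
    unfold pr at hδ ⊢
    linarith
  have hsplit : ∑' p : Nat.Primes, g p * w (1 + u) p =
      ∑ p ∈ pr y, g p * (p : ℝ) ^ (-(1 + u)) +
        ∑' p : Nat.Primes, (if p ∈ prS y then 0 else g p * w (1 + u) p) := by
    have e1 : ∀ p : Nat.Primes, g p * w (1 + u) p =
        (if p ∈ prS y then g p * w (1 + u) p else 0) +
        (if p ∈ prS y then 0 else g p * w (1 + u) p) := by
      intro p
      split_ifs <;> simp
    have s1 : Summable (fun p : Nat.Primes => if p ∈ prS y then g p * w (1 + u) p else 0) :=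
      summable_of_ne_finset_zero (s := prS y) fun p hp => by rw [if_neg hp]
    have s2 : Summable (fun p : Nat.Primes => if p ∈ prS y then 0 else g p * w (1 + u) p) := by
      have := hgs.sub s1
      refine this.congr fun p => ?_
      split_ifs <;> simp
    rw [tsum_congr e1, Summable.tsum_add s1 s2, tsum_eq_sum (s := prS y)
      (fun p hp => by rw [if_neg hp])]
    congr 1
    rw [Finset.sum_congr rfl (fun p hp => if_pos hp)]
    exact sum_prS y (fun p => g p * (p : ℝ) ^ (-(1 + u)))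
  have hWsplit : W (1 + u) = ∑ p ∈ pr y, (p : ℝ) ^ (-(1 + u)) +
        ∑' p : Nat.Primes, (if p ∈ prS y then 0 else w (1 + u) p) := by
    have e1 : ∀ p : Nat.Primes, w (1 + u) p =
        (if p ∈ prS y then w (1 + u) p else 0) +
        (if p ∈ prS y then 0 else w (1 + u) p) := by
      intro p
      split_ifs <;> simp
    have s1 : Summable (fun p : Nat.Primes => if p ∈ prS y then w (1 + u) p else 0) :=
      summable_of_ne_finset_zero (s := prS y) fun p hp => by rw [if_neg hp]
    have s2 : Summable (fun p : Nat.Primes => if p ∈ prS y then 0 else w (1 + u) p) := by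
      have := hWs.sub s1
      refine this.congr fun p => ?_
      split_ifs <;> simp
    show ∑' p : Nat.Primes, w (1 + u) p = _
    rw [tsum_congr e1, Summable.tsum_add s1 s2, tsum_eq_sum (s := prS y)
      (fun p hp => by rw [if_neg hp])]
    congr 1
    rw [Finset.sum_congr rfl (fun p hp => if_pos hp)]
    exact sum_prS y (fun p => (p : ℝ) ^ (-(1 + u)))
  have htail : |∑' p : Nat.Primes, (if p ∈ prS y then 0 else g p * w (1 + u) p)| ≤
      D * (|C2| + C4 + (1 + C3)) := by
    have s2 : Summable (fun p : Nat.Primes => if p ∈ prS y then 0 else w (1 + u) p) := by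
      refine Summable.of_nonneg_of_le (fun p => ?_) (fun p => ?_) hWs
      · split_ifs
        · exact le_rfl
        · exact w_nonneg _ _
      · split_ifs
        · exact w_nonneg _ _
        · exact le_rfl
    have := tsum_of_norm_bounded (f := fun p : Nat.Primes =>
      (if p ∈ prS y then 0 else g p * w (1 + u) p)) (s2.mul_left D).hasSum (fun p => by
        rw [Real.norm_eq_abs]
        split_ifs
        · simp
        · rw [abs_mul, abs_of_nonneg (w_nonneg _ _)]
          exact mul_le_mul_of_nonneg_right (hg p p.prop) (w_nonneg _ _))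
    rw [Real.norm_eq_abs, tsum_mul_left] at this
    refine this.trans (mul_le_mul_of_nonneg_left ?_ hD)
    linarith
  have hdiff : |∑ p ∈ pr y, g p / p - ∑ p ∈ pr y, g p * (p : ℝ) ^ (-(1 + u))| ≤ D * (1 + C3) := by
    rw [← Finset.sum_sub_distrib]
    refine (Finset.abs_sum_le_sum_abs _ _).trans ?_
    refine le_trans (Finset.sum_le_sum (g := fun p : ℕ => D * (1 / (p : ℝ) - (p : ℝ) ^ (-(1 + u))))
      fun p hp => ?_) ?_
    · have hpp := (Finset.mem_filter.1 hp).2
      have e1 := (one_sub_rpow hpp.one_lt.le hu0.le).1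
      have e2 : g p / p - g p * (p : ℝ) ^ (-(1 + u)) =
          g p * (1 / (p : ℝ) - (p : ℝ) ^ (-(1 + u))) := by ring
      rw [e2, abs_mul, abs_of_nonneg e1]
      exact mul_le_mul_of_nonneg_right (hg p hpp) e1
    · rw [← Finset.mul_sum]
      exact mul_le_mul_of_nonneg_left hδ hD
  have hC1 := hx1.trans (le_abs_self C1)
  rw [hsplit] at hC1
  have hDy : 0 ≤ D * y0 := by positivity
  have e1 := abs_le.1 hC1
  have e2 := abs_le.1 htail
  have e3 := abs_le.1 hdiff
  rw [abs_le]
  constructor <;> linarith [e1.1, e1.2, e2.1, e2.2, e3.1, e3.2]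

/-- the number of the roots is bounded -/
lemma rho_le (P : ℤ[X]) {p : ℕ} (hp : p.Prime) (hpa : ¬ (p : ℤ) ∣ P.leadingCoeff) :
    rho P p ≤ P.natDegree := by
  classical
  have : Fact p.Prime := ⟨hp⟩
  have hne : P.map (Int.castRingHom (ZMod p)) ≠ 0 := by
    intro h
    apply hpa
    rw [← ZMod.intCast_zmod_eq_zero_iff_dvd]
    have := congrArg (fun q : (ZMod p)[X] => q.coeff P.natDegree) h
    simpa [coeff_map] using this
  rw [rho_eq]
  have h1 : Nat.card {r : ZMod p // (P.map (Int.castRingHom (ZMod p))).eval r = 0} ≤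
      (P.map (Int.castRingHom (ZMod p))).roots.toFinset.card := by
    have : NeZero p := ⟨hp.ne_zero⟩
    rw [Nat.card_eq_fintype_card, Fintype.card_subtype]
    apply Finset.card_le_card
    intro r hr
    rw [Multiset.mem_toFinset, mem_roots hne]
    exact (Finset.mem_filter.1 hr).2
  exact h1.trans ((Multiset.toFinset_card_le _).trans ((card_roots' _).trans (natDegree_map_le)))

lemma rho_le' (P : ℤ[X]) (hP : P ≠ 0) {p : ℕ} (hp : p.Prime) :
    rho P p ≤ P.natDegree + P.leadingCoeff.natAbs := by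
  by_cases h : (p : ℤ) ∣ P.leadingCoeff
  · have h1 : rho P p ≤ p := (Finset.card_filter_le _ _).trans (by simp)
    have h2 : p ≤ P.leadingCoeff.natAbs := Nat.le_of_dvd
      (Int.natAbs_pos.2 (leadingCoeff_ne_zero.2 hP)) (Int.natCast_dvd.1 h)
    omega
  · exact (rho_le P hp h).trans (Nat.le_add_right _ _)

lemma rho_primPart (P : ℤ[X]) {p : ℕ} (hp : p.Prime) (h : ¬ (p : ℤ) ∣ P.content) :
    rho P p = rho P.primPart p := by
  unfold rho
  congr 1
  refine Finset.filter_congr fun r _ => ?_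
  conv_lhs => rw [P.eq_C_content_mul_primPart]
  rw [eval_mul, eval_C]
  constructor
  · intro h1
    exact ((Nat.prime_iff_prime_int.1 hp).dvd_or_dvd h1).resolve_left h
  · intro h1
    exact h1.mul_left _

lemma rho_sum_bdd (P : ℤ[X]) (hirr : Irreducible (P.map (Int.castRingHom ℚ))) :
    Bdd (fun x => ∑' p : Nat.Primes, ((rho P p : ℝ) - 1) * w x p) := by
  classical
  have hP : P ≠ 0 := by
    rintro rfl
    simp at hirr
  have hc : P.content ≠ 0 := by rwa [Ne, content_eq_zero_iff]
  have hirr' : Irreducible (P.primPart.map (Int.castRingHom ℚ)) := by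
    have h1 : P.map (Int.castRingHom ℚ) = C ((P.content : ℚ)) * P.primPart.map (Int.castRingHom ℚ) := by
      conv_lhs => rw [P.eq_C_content_mul_primPart]
      rw [Polynomial.map_mul, map_C]
      rfl
    rw [h1] at hirr
    have hu : IsUnit (C ((P.content : ℚ)) : ℚ[X]) := by
      rw [isUnit_C]
      exact isUnit_iff_ne_zero.2 (by exact_mod_cast hc)
    exact (irreducible_isUnit_mul hu).1 hirr
  obtain ⟨K, iF, iN, N, hN0, hN⟩ := exists_field P.primPart P.isPrimitive_primPart hirr'
  have h1 := sum_R_bdd (K := K)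
  have hb : ∀ p : Nat.Primes, |(rho P p : ℝ) - R K p| ≤
      (P.natDegree + P.leadingCoeff.natAbs : ℕ) + Module.finrank ℚ K := by
    intro p
    have a1 := rho_le' P hP p.prop
    have a2 := R_le (K := K) p
    have a1' : (rho P p : ℝ) ≤ (P.natDegree + P.leadingCoeff.natAbs : ℕ) := by exact_mod_cast a1
    have a2' : (R K p : ℝ) ≤ Module.finrank ℚ K := by exact_mod_cast a2
    have a3 : (0 : ℝ) ≤ rho P p := Nat.cast_nonneg _
    have a4 : (0 : ℝ) ≤ R K p := Nat.cast_nonneg _
    rw [abs_le]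
    constructor <;> linarith
  have h2 := finite_support_bdd (g := fun p => (rho P p : ℝ) - R K p) hb
    (M := (N * P.content).natAbs) (Int.natAbs_ne_zero.2 (mul_ne_zero hN0 hc)) (by
      intro p hp
      rw [← Int.natCast_dvd] at hp
      have e1 : ¬ ((p : ℕ) : ℤ) ∣ P.content := fun h => hp (h.mul_left _)
      have e2 : ¬ ((p : ℕ) : ℤ) ∣ N := fun h => hp (h.mul_right _)
      rw [rho_primPart P p.prop e1, hN p e2, sub_self])
  refine (h1.add h2).congr fun x hx => ?_
  have s1 : Summable (fun p : Nat.Primes => ((R K p : ℝ) - 1) * w x p) :=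
    bddmul_summable hx (C := Module.finrank ℚ K + 1) fun p => by
      have a2 := R_le (K := K) p
      have a2' : (R K p : ℝ) ≤ Module.finrank ℚ K := by exact_mod_cast a2
      have a4 : (0 : ℝ) ≤ R K p := Nat.cast_nonneg _
      rw [abs_le]
      constructor <;> linarith
  have s2 : Summable (fun p : Nat.Primes => ((rho P p : ℝ) - R K p) * w x p) :=
    bddmul_summable hx hb
  rw [← Summable.tsum_add s1 s2]
  refine tsum_congr fun p => ?_
  ring

/-- **Mertens' theorem for the roots of an irreducible polynomial** -/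
theorem mertens_rho (P : ℤ[X]) (hirr : Irreducible (P.map (Int.castRingHom ℚ))) :
    ∃ C : ℝ, ∀ y : ℕ, 3 ≤ y →
      |∑ p ∈ pr y, (rho P p : ℝ) / p - Real.log (Real.log y)| ≤ C := by
  have hP : P ≠ 0 := by
    rintro rfl
    simp at hirr
  obtain ⟨C1, h1⟩ := trunc (g := fun p => (rho P p : ℝ) - 1)
    (D := (P.natDegree + P.leadingCoeff.natAbs : ℕ) + 1) (fun p hp => by
      have a1 := rho_le' P hP hp
      have a1' : (rho P p : ℝ) ≤ (P.natDegree + P.leadingCoeff.natAbs : ℕ) := by exact_mod_cast a1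
      have a3 : (0 : ℝ) ≤ rho P p := Nat.cast_nonneg _
      rw [abs_le]
      constructor <;> linarith) (rho_sum_bdd P hirr)
  obtain ⟨C2, h2⟩ := Pool.Agent.Helper256.KM.mertens_inv
  refine ⟨C1 + C2, fun y hy => ?_⟩
  have e1 := h1 y hy
  have e2 := h2 y hy
  have e3 : ∑ p ∈ pr y, (rho P p : ℝ) / p - Real.log (Real.log y) =
      (∑ p ∈ pr y, ((rho P p : ℝ) - 1) / p) +
        (∑ p ∈ (Finset.Icc 1 y).filter Nat.Prime, (1 : ℝ) / p - Real.log (Real.log y)) := by
    have : ∑ p ∈ pr y, (rho P p : ℝ) / p = (∑ p ∈ pr y, ((rho P p : ℝ) - 1) / p) +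
        ∑ p ∈ (Finset.Icc 1 y).filter Nat.Prime, (1 : ℝ) / p := by
      unfold pr
      rw [← Finset.sum_add_distrib]
      refine Finset.sum_congr rfl fun p _ => ?_
      ring
    rw [this]
    ring
  rw [e3]
  exact (abs_add_le _ _).trans (add_le_add e1 e2)

end Pool.Agent.L0h5.MR
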