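import Pool.Agent.H921R2.TatePole.Homs

/-!
# The number of the roots of a polynomial modulo a prime and the primes of degree one
-/

set_option autoImplicit false

namespace Pool.Agent.L0h5.MR

open Polynomial NumberField Pool.Agent.H921R2.TatePole

/-- the number of the roots modulo `p` -/
def rho (P : ℤ[X]) (p : ℕ) : ℕ :=
  ((Finset.range p).filter (fun r : ℕ => (p : ℤ) ∣ P.eval (r : ℤ))).card

lemma eval_cast (P : ℤ[X]) (p : ℕ) (x : ℤ) :
    (P.map (Int.castRingHom (ZMod p))).eval (x : ZMod p) = ((P.eval x : ℤ) : ZMod p) := by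
  rw [eval_intCast_map, eq_intCast, Int.cast_id]

lemma rho_eq (P : ℤ[X]) (p : ℕ) [Fact p.Prime] :
    rho P p = Nat.card {r : ZMod p // (P.map (Int.castRingHom (ZMod p))).eval r = 0} := by
  classical
  have hp : p ≠ 0 := (Fact.out : p.Prime).ne_zero
  have : NeZero p := ⟨hp⟩
  unfold rho
  rw [Nat.card_eq_fintype_card, Fintype.card_subtype]
  refine Finset.card_bij (fun r _ => (r : ZMod p)) ?_ ?_ ?_
  · intro r hr
    rw [Finset.mem_filter] at hr ⊢
    refine ⟨Finset.mem_univ _, ?_⟩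
    have h := eval_cast P p (r : ℤ)
    rw [Int.cast_natCast] at h
    rw [h]
    exact (ZMod.intCast_zmod_eq_zero_iff_dvd _ _).2 hr.2
  · intro a ha b hb hab
    have h1 := Finset.mem_range.1 (Finset.mem_filter.1 ha).1
    have h2 := Finset.mem_range.1 (Finset.mem_filter.1 hb).1
    have h3 := congrArg ZMod.val hab
    rwa [ZMod.val_cast_of_lt h1, ZMod.val_cast_of_lt h2] at h3
  · intro r hr
    refine ⟨r.val, ?_, by simp⟩
    rw [Finset.mem_filter, Finset.mem_range] at *
    refine ⟨ZMod.val_lt r, ?_⟩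
    have h := eval_cast P p (r.val : ℤ)
    rw [Int.cast_natCast, ZMod.natCast_zmod_val, hr.2] at h
    exact (ZMod.intCast_zmod_eq_zero_iff_dvd _ _).1 h.symm

section
variable {K : Type} [Field K] [NumberField K]

lemma clear {P : ℤ[X]} (hP : P ≠ 0) {α : K}
    (hgen : ∀ x : K, ∃ g : ℚ[X], aeval α g = x) (x : K) :
    ∃ n : ℤ, n ≠ 0 ∧ ∃ q : ℤ[X], aeval ((P.leadingCoeff : K) * α) q = (n : K) * x := by
  have ha : P.leadingCoeff ≠ 0 := leadingCoeff_ne_zero.2 hP
  obtain ⟨g, rfl⟩ := hgen x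
  induction g using Polynomial.induction_on with
  | C c =>
    refine ⟨c.den, by exact_mod_cast c.den_nz, C c.num, ?_⟩
    rw [aeval_C, aeval_C]
    simp only [algebraMap_int_eq, eq_intCast, eq_ratCast, Int.cast_natCast]
    have h : ((c.num : ℚ)) = (c.den : ℚ) * c := by
      rw [mul_comm]
      exact (Rat.mul_den_eq_num c).symm
    have h2 := congrArg (fun t : ℚ => (t : K)) h
    push_cast at h2
    exact h2
  | add p q hp hq =>
    obtain ⟨n1, hn1, q1, h1⟩ := hp
    obtain ⟨n2, hn2, q2, h2⟩ := hq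
    refine ⟨n1 * n2, mul_ne_zero hn1 hn2, C n2 * q1 + C n1 * q2, ?_⟩
    rw [map_add, map_mul, map_mul, h1, h2, aeval_C, aeval_C, map_add]
    simp only [algebraMap_int_eq, eq_intCast]
    push_cast
    ring
  | monomial n c h =>
    obtain ⟨m, hm, q, hq⟩ := h
    refine ⟨m * P.leadingCoeff, mul_ne_zero hm ha, q * X, ?_⟩
    have e : aeval α (C c * X ^ (n + 1)) = aeval α (C c * X ^ n) * α := by
      rw [pow_succ, ← mul_assoc, map_mul (aeval α) (C c * X ^ n) X, aeval_X]
    rw [map_mul, hq, aeval_X, e]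
    push_cast
    ring

lemma clear_all {P : ℤ[X]} (hP : P ≠ 0) {α : K} (hgen : ∀ x : K, ∃ g : ℚ[X], aeval α g = x)
    (β : 𝓞 K) (hβ : (β : K) = (P.leadingCoeff : K) * α) :
    ∃ N : ℤ, N ≠ 0 ∧ ∀ b : 𝓞 K, ∃ q : ℤ[X], aeval β q = (N : 𝓞 K) * b := by
  classical
  have key : ∀ b : 𝓞 K, ∃ n : ℤ, n ≠ 0 ∧ ∃ q : ℤ[X], aeval β q = (n : 𝓞 K) * b := by
    intro b
    obtain ⟨n, hn, q, hq⟩ := clear hP hgen (b : K)
    refine ⟨n, hn, q, ?_⟩
    apply RingOfIntegers.coe_injective
    rw [← hβ] at hq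
    have h1 : algebraMap (𝓞 K) K (aeval β q) = aeval (β : K) q :=
      (aeval_algebraMap_apply K β q).symm
    rw [h1, hq]
    simp
  obtain ⟨S, hS⟩ := (Module.Finite.fg_top : (⊤ : Submodule ℤ (𝓞 K)).FG)
  choose n hn q hq using key
  refine ⟨∏ s ∈ S, n s, Finset.prod_ne_zero_iff.2 fun s _ => hn s, fun b => ?_⟩
  have hb : b ∈ Submodule.span ℤ (S : Set (𝓞 K)) := by rw [hS]; trivial
  induction hb using Submodule.span_induction with
  | mem s hs =>
    have h1 : (∏ s ∈ S, n s) = (∏ t ∈ S.erase s, n t) * n s :=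
      (Finset.prod_erase_mul S n hs).symm
    refine ⟨C (∏ t ∈ S.erase s, n t) * q s, ?_⟩
    rw [map_mul, hq s, aeval_C, h1]
    simp only [algebraMap_int_eq, eq_intCast]
    push_cast
    ring
  | zero => exact ⟨0, by simp⟩
  | add x y _ _ hx hy =>
    obtain ⟨q1, h1⟩ := hx
    obtain ⟨q2, h2⟩ := hy
    exact ⟨q1 + q2, by rw [map_add, h1, h2]; ring⟩
  | smul m x _ hx =>
    obtain ⟨q1, h1⟩ := hx
    refine ⟨C m * q1, ?_⟩
    rw [map_mul, h1, aeval_C, zsmul_eq_mul]
    simp only [algebraMap_int_eq, eq_intCast]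
    ring

/-- the number of the homomorphisms is the number of the roots -/
lemma hc_eq {P : ℤ[X]} (hprim : P.IsPrimitive) {α : K}
    (hα : aeval α P = 0) (hdvd : ∀ g : ℚ[X], aeval α g = 0 → P.map (Int.castRingHom ℚ) ∣ g)
    (β : 𝓞 K) (hβ : (β : K) = (P.leadingCoeff : K) * α) {N : ℤ}
    (hN : ∀ b : 𝓞 K, ∃ q : ℤ[X], aeval β q = (N : 𝓞 K) * b) (p : ℕ) [Fact p.Prime]
    (hpN : ¬ (p : ℤ) ∣ N) (hpa : ¬ (p : ℤ) ∣ P.leadingCoeff) :
    hc (𝓞 K) p = rho P p := by
  classical
  have ha : (P.leadingCoeff : ZMod p) ≠ 0 := by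
    rwa [Ne, ZMod.intCast_zmod_eq_zero_iff_dvd]
  set a := P.leadingCoeff with hadef
  set d := P.natDegree with hd
  rw [rho_eq]
  unfold hc
  -- the relation in the ring of integers
  have hrel : ∑ k ∈ Finset.range (d + 1), ((P.coeff k : ℤ) : 𝓞 K) * β ^ k * (a : 𝓞 K) ^ (d - k) = 0 := by
    apply RingOfIntegers.coe_injective
    rw [aeval_eq_sum_range] at hα
    have h1 : ∑ k ∈ Finset.range (d + 1), ((P.coeff k : ℤ) : K) * (β : K) ^ k * (a : K) ^ (d - k) =
        (a : K) ^ d * ∑ k ∈ Finset.range (P.natDegree + 1), P.coeff k • α ^ k := by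
      rw [Finset.mul_sum]
      refine Finset.sum_congr rfl fun k hk => ?_
      have hk' : k ≤ d := by rw [Finset.mem_range] at hk; omega
      rw [hβ, mul_pow, zsmul_eq_mul]
      have h2 : (a : K) ^ d = (a : K) ^ k * (a : K) ^ (d - k) := by
        rw [← pow_add]; congr 1; omega
      rw [h2]
      ring
    rw [hα, mul_zero] at h1
    push_cast [map_sum, map_mul, map_pow]
    simpa using h1
  have hroot : ∀ ψ : 𝓞 K →+* ZMod p,
      (P.map (Int.castRingHom (ZMod p))).eval ((a : ZMod p)⁻¹ * ψ β) = 0 := by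
    intro ψ
    have h1 := congrArg ψ hrel
    rw [map_sum, map_zero] at h1
    have h2 : ∑ k ∈ Finset.range (d + 1), ψ (((P.coeff k : ℤ) : 𝓞 K) * β ^ k * (a : 𝓞 K) ^ (d - k)) =
        (a : ZMod p) ^ d * ∑ k ∈ Finset.range (d + 1),
          (P.coeff k : ZMod p) * ((a : ZMod p)⁻¹ * ψ β) ^ k := by
      rw [Finset.mul_sum]
      refine Finset.sum_congr rfl fun k hk => ?_
      have hk' : k ≤ d := by rw [Finset.mem_range] at hk; omega
      rw [map_mul, map_mul, map_pow, map_pow, map_intCast, map_intCast]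
      have h3 : (a : ZMod p) ^ d = (a : ZMod p) ^ k * (a : ZMod p) ^ (d - k) := by
        rw [← pow_add]; congr 1; omega
      rw [h3, mul_pow, inv_pow]
      have h4 : (a : ZMod p) ^ k ≠ 0 := pow_ne_zero _ ha
      field_simp
    rw [h2] at h1
    have h5 := (mul_eq_zero.1 h1).resolve_left (pow_ne_zero _ ha)
    rw [eval_map, eval₂_eq_sum_range]
    simpa using h5
  refine Nat.card_congr (Equiv.ofBijective
    (fun ψ : 𝓞 K →+* ZMod p => (⟨(a : ZMod p)⁻¹ * ψ β, hroot ψ⟩ :
      {r : ZMod p // (P.map (Int.castRingHom (ZMod p))).eval r = 0})) ⟨?_, ?_⟩)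
  · intro φ ψ h
    have h1 : (a : ZMod p)⁻¹ * φ β = (a : ZMod p)⁻¹ * ψ β := congrArg Subtype.val h
    have h2 : φ β = ψ β := mul_left_cancel₀ (inv_ne_zero ha) h1
    apply restrict_injective (aeval β : ℤ[X] →ₐ[ℤ] 𝓞 K).toRingHom hN hpN
    apply Polynomial.ringHom_ext
    · intro m
      simp
    · simpa using h2
  · rintro ⟨r, hr⟩
    set φ : ℤ[X] →+* ZMod p := eval₂RingHom (Int.castRingHom (ZMod p)) ((a : ZMod p) * r) with hφ
    obtain ⟨ψ, hψ⟩ := extend_hom (aeval β : ℤ[X] →ₐ[ℤ] 𝓞 K).toRingHom hN hpN φ (by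
      intro q hq
      rw [RingHom.mem_ker] at hq ⊢
      have hq0 : aeval β q = 0 := hq
      have hq1 : aeval (β : K) q = 0 := by
        rw [aeval_algebraMap_apply K β q, hq0, map_zero]
      set q' : ℤ[X] := q.comp (C a * X) with hq'
      have hq2 : aeval α q' = 0 := by
        rw [hq', aeval_comp, map_mul, aeval_C, aeval_X]
        simp only [algebraMap_int_eq, eq_intCast]
        rw [← hβ]
        exact hq1
      have hq3 : aeval α (q'.map (Int.castRingHom ℚ)) = 0 := by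
        have := aeval_map_algebraMap ℚ α q'
        simp only [algebraMap_int_eq] at this
        rw [this]
        exact hq2
      have hq4 : P ∣ q' := (IsPrimitive.Int.dvd_iff_map_cast_dvd_map_cast P q' hprim).2
        (hdvd _ hq3)
      obtain ⟨h, hh⟩ := hq4
      have hq5 : (q'.map (Int.castRingHom (ZMod p))).eval r = 0 := by
        rw [hh, Polynomial.map_mul, eval_mul, hr, zero_mul]
      rw [hφ, coe_eval₂RingHom]
      rw [hq', Polynomial.map_comp, eval_comp, Polynomial.map_mul, map_C, map_X, eval_mul,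
        eval_C, eval_X, eval_map] at hq5
      simpa using hq5)
    refine ⟨ψ, Subtype.ext ?_⟩
    show (a : ZMod p)⁻¹ * ψ β = r
    have h1 : ψ β = (a : ZMod p) * r := by
      have := RingHom.congr_fun hψ X
      simpa [hφ] using this
    rw [h1, inv_mul_cancel_left₀ ha]

end

/-- the degree one primes and the roots, for all but finitely many primes -/
lemma exists_field (P : ℤ[X]) (hprim : P.IsPrimitive)
    (hirr : Irreducible (P.map (Int.castRingHom ℚ))) :
    ∃ (K : Type) (_ : Field K) (_ : NumberField K) (N : ℤ), N ≠ 0 ∧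
      ∀ p : Nat.Primes, ¬ ((p : ℕ) : ℤ) ∣ N → R K p = rho P p := by
  classical
  have : Fact (Irreducible (P.map (Int.castRingHom ℚ))) := ⟨hirr⟩
  set K := AdjoinRoot (P.map (Int.castRingHom ℚ)) with hK
  have hP : P ≠ 0 := by
    rintro rfl
    simp at hirr
  have : CharZero K := algebraRat.charZero K
  have : FiniteDimensional ℚ K := by
    have h1 : Module.Finite ℚ K := (AdjoinRoot.powerBasis hirr.ne_zero).finite
    convert h1
  have : NumberField K := { }
  set α : K := AdjoinRoot.root (P.map (Int.castRingHom ℚ)) with hα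
  have hmk : ∀ g : ℚ[X], aeval α g = AdjoinRoot.mk (P.map (Int.castRingHom ℚ)) g := by
    intro g
    have h : (aeval α : ℚ[X] →ₐ[ℚ] K).toRingHom = AdjoinRoot.mk (P.map (Int.castRingHom ℚ)) :=
      Polynomial.ringHom_ext' (Subsingleton.elim _ _) (by
        show aeval α X = _
        rw [aeval_X, hα, AdjoinRoot.mk_X])
    exact RingHom.congr_fun h g
  have hα0 : aeval α P = 0 := by
    have h1 := aeval_map_algebraMap ℚ α P
    simp only [algebraMap_int_eq] at h1
    rw [← h1, hmk, AdjoinRoot.mk_self]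
  have hgen : ∀ x : K, ∃ g : ℚ[X], aeval α g = x := by
    intro x
    obtain ⟨g, hg⟩ := AdjoinRoot.mk_surjective x
    exact ⟨g, by rw [hmk, hg]⟩
  have hdvd : ∀ g : ℚ[X], aeval α g = 0 → P.map (Int.castRingHom ℚ) ∣ g := by
    intro g hg
    rw [hmk, AdjoinRoot.mk_eq_zero] at hg
    exact hg
  have hint : IsIntegral ℤ ((P.leadingCoeff : K) * α) := by
    have := isIntegral_leadingCoeff_smul P α hα0
    rwa [zsmul_eq_mul] at this
  set β : 𝓞 K := ⟨(P.leadingCoeff : K) * α, hint⟩ with hβ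
  obtain ⟨N, hN0, hN⟩ := clear_all hP hgen β rfl
  refine ⟨K, inferInstance, inferInstance, N * P.leadingCoeff,
    mul_ne_zero hN0 (leadingCoeff_ne_zero.2 hP), fun p hp => ?_⟩
  have : Fact (p : ℕ).Prime := ⟨p.prop⟩
  rw [R_eq_hc]
  exact hc_eq hprim hα0 hdvd β rfl hN p (fun h => hp (h.mul_right _))
    (fun h => hp (h.mul_left _))

end Pool.Agent.L0h5.MR
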