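import Pool.Agent.L0h5.TF.Good

/-!
# Roots modulo primes at which a given value is a square
-/

set_option autoImplicit false

namespace Pool.Agent.L0h5.MR

open Finset Polynomial Pool.Agent.L0h5.TF

section

variable {L : Type} [Field L] [Algebra ℚ L]

lemma aeval_map_Q (β : L) (M : ℤ[X]) : aeval β (M.map (Int.castRingHom ℚ)) = aeval β M := by
  have h : (Int.castRingHom ℚ) = algebraMap ℤ ℚ := rfl
  rw [h, aeval_map_algebraMap]

lemma V1 {β : L} {M : ℤ[X]} (hM : Irreducible (M.map (Int.castRingHom ℚ)))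
    (hβ : aeval β M = 0) {G : ℤ[X]} (hG : aeval β G = 0) :
    ∃ N : ℤ, N ≠ 0 ∧ ∃ U : ℤ[X], C N * G = M * U := by
  have h1 : M.map (Int.castRingHom ℚ) ∣ G.map (Int.castRingHom ℚ) := by
    by_contra hcon
    obtain ⟨u, v, huv⟩ := (hM.coprime_iff_not_dvd).2 hcon
    have h2 := congrArg (aeval β) huv
    rw [map_add, map_mul, map_mul, aeval_map_Q, aeval_map_Q, hβ, hG, mul_zero, mul_zero, add_zero,
      map_one] at h2
    exact zero_ne_one h2
  obtain ⟨u, hu⟩ := h1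
  obtain ⟨m, hm, A, hA⟩ := clear_den u
  refine ⟨m, hm, A, ?_⟩
  apply Polynomial.map_injective (Int.castRingHom ℚ) (RingHom.injective_int _)
  rw [Polynomial.map_mul, Polynomial.map_mul, map_C, hu, hA]
  have h1 : (Int.castRingHom ℚ) m = (m : ℚ) := rfl
  rw [h1]
  ring

lemma V1' {β : L} {M : ℤ[X]} (hM : Irreducible (M.map (Int.castRingHom ℚ)))
    (hβ : aeval β M = 0) {G : ℤ[X]} (hG : aeval β G = 0) :
    ∃ z0 : ℕ, ∀ p : ℕ, p.Prime → z0 < p → ∀ y : ZMod p, aeval y M = 0 → aeval y G = 0 := by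
  obtain ⟨N, hN, U, hU⟩ := V1 hM hβ hG
  refine ⟨N.natAbs, fun p hp hz y hy => ?_⟩
  have : Fact p.Prime := ⟨hp⟩
  have h1 := congrArg (aeval y) hU
  rw [map_mul, map_mul, hy, zero_mul, aeval_C] at h1
  have h2 : (algebraMap ℤ (ZMod p)) N ≠ 0 := by
    have h3 : (algebraMap ℤ (ZMod p)) N = (N : ZMod p) := rfl
    rw [h3, Ne, ZMod.intCast_zmod_eq_zero_iff_dvd]
    intro hd
    have := Nat.le_of_dvd (Int.natAbs_pos.2 hN) (Int.natCast_dvd.1 hd)
    omega
  exact (mul_eq_zero.1 h1).resolve_left h2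

/-- evaluation of a polynomial in two variables -/
noncomputable def ev {R : Type} [CommRing R] (r w : R) : ℤ[X][X] →+* R :=
  eval₂RingHom (aeval r : ℤ[X] →ₐ[ℤ] R).toRingHom w

lemma ev_C {R : Type} [CommRing R] (r w : R) (a : ℤ[X]) : ev r w (C a) = aeval r a := by
  simp [ev]

lemma ev_X {R : Type} [CommRing R] (r w : R) : ev r w X = w := by
  simp [ev]

lemma ev_aeval {R : Type} [CommRing R] (r w : R) (G : ℤ[X][X]) (M : ℤ[X]) :
    ev r w (aeval G M) = aeval (ev r w G) M := by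
  have h := Polynomial.aeval_algHom_apply (ev r w).toIntAlgHom G M
  exact h.symm

lemma V2 {θ s : L} {P h : ℤ[X]} (hP : Irreducible (P.map (Int.castRingHom ℚ)))
    (hθ : aeval θ P = 0) (hs : s ^ 2 = aeval θ h)
    (hns : ∀ a b : ℤ[X], aeval θ a * s + aeval θ b = 0 → aeval θ a = 0)
    {G : ℤ[X][X]} (hG : ev θ s G = 0) :
    ∃ z0 : ℕ, ∀ p : ℕ, p.Prime → z0 < p → ∀ r w : ZMod p, aeval r P = 0 → w ^ 2 = aeval r h →
      ev r w G = 0 := by
  have hmon : (X ^ 2 - C h : ℤ[X][X]).Monic := monic_X_pow_sub_C h two_ne_zero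
  set R := G %ₘ (X ^ 2 - C h) with hR
  set Q := G /ₘ (X ^ 2 - C h) with hQ
  have hGe : R + (X ^ 2 - C h) * Q = G := modByMonic_add_div G (X ^ 2 - C h)
  have hdeg : R.natDegree ≤ 1 := by
    have h1 := natDegree_modByMonic_lt G hmon (by
      intro h1
      have h2 := congrArg natDegree h1
      rw [natDegree_X_pow_sub_C, natDegree_one] at h2
      omega)
    rw [natDegree_X_pow_sub_C, ← hR] at h1
    omega
  have hRe := eq_X_add_C_of_natDegree_le_one hdeg
  have h1 : aeval θ (R.coeff 1) * s + aeval θ (R.coeff 0) = 0 := by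
    have h2 := congrArg (ev θ s) hGe
    rw [map_add, map_mul, map_sub, map_pow, ev_X, ev_C, hs, sub_self, zero_mul, add_zero, hG,
      hRe] at h2
    rw [map_add, map_mul, ev_C, ev_X, ev_C] at h2
    exact h2
  have ha := hns _ _ h1
  have hb : aeval θ (R.coeff 0) = 0 := by
    rw [ha, zero_mul, zero_add] at h1
    exact h1
  obtain ⟨z1, hz1⟩ := V1' hP hθ ha
  obtain ⟨z2, hz2⟩ := V1' hP hθ hb
  refine ⟨max z1 z2, fun p hp hz r w hr hw => ?_⟩
  have h2 := congrArg (ev r w) hGe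
  rw [map_add, map_mul, map_sub, map_pow, ev_X, ev_C, hw, sub_self, zero_mul, add_zero, hRe,
    map_add, map_mul, ev_C, ev_X, ev_C, hz1 p hp (lt_of_le_of_lt (le_max_left _ _) hz) r hr,
    hz2 p hp (lt_of_le_of_lt (le_max_right _ _) hz) r hr, zero_mul, add_zero] at h2
  exact h2.symm

end

lemma clear_int (u : ℚ[X]) : ∃ m : ℤ, m ≠ 0 ∧ ∃ A : ℤ[X],
    ∀ {L : Type} [Field L] [Algebra ℚ L] (β : L), aeval β A = (m : L) * aeval β u := by
  obtain ⟨m, hm, A, hA⟩ := clear_den u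
  refine ⟨m, hm, A, ?_⟩
  intro L _ _ β
  rw [← aeval_map_Q, hA, map_mul, aeval_C]
  congr 1
  exact map_intCast (algebraMap ℚ L) m

/-- the quadratic extension of the field of a root -/
lemma ext_abs {K L : Type} [Field K] [Algebra ℚ K] [Field L] [Algebra ℚ L] [Algebra K L]
    [IsScalarTower ℚ K L] [Module.Finite ℚ L] (ρ : K) (s : L) (P h : ℤ[X])
    (hρ : aeval ρ (P.map (Int.castRingHom ℚ)) = 0) (hK : ∀ x : K, ∃ u : ℚ[X], aeval ρ u = x)
    (hs : s ^ 2 = algebraMap K L (aeval ρ (h.map (Int.castRingHom ℚ))))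
    (hns : ¬ IsSquare (aeval ρ (h.map (Int.castRingHom ℚ))))
    (hL : ∀ x : L, ∃ u v : K, x = algebraMap K L v * s + algebraMap K L u) :
    ∃ (θ β : L) (a b M φ ψ : ℤ[X]) (n : ℤ),
      n ≠ 0 ∧ aeval θ P = 0 ∧ s ^ 2 = aeval θ h ∧
      (∀ a b : ℤ[X], aeval θ a * s + aeval θ b = 0 → aeval θ a = 0) ∧
      β = aeval θ a + aeval θ b * s ∧ Irreducible (M.map (Int.castRingHom ℚ)) ∧
      aeval β M = 0 ∧ (n : L) * θ = aeval β φ ∧ (n : L) * s = aeval β ψ := by
  classical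
  set θ : L := algebraMap K L ρ with hθ
  have hθQ : ∀ F : ℚ[X], aeval θ F = algebraMap K L (aeval ρ F) := by
    intro F
    rw [hθ, aeval_algebraMap_apply]
  have hθF : ∀ F : ℤ[X], aeval θ F = algebraMap K L (aeval ρ (F.map (Int.castRingHom ℚ))) := by
    intro F
    rw [← aeval_map_Q, hθQ]
  have hinj : Function.Injective (algebraMap K L) := FaithfulSMul.algebraMap_injective _ _
  have : CharZero L := algebraRat.charZero L
  set pb := Field.powerBasisOfFiniteOfSeparable ℚ L with hpb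
  set β0 : L := pb.gen with hβ0
  obtain ⟨u, v, hge⟩ := hL β0
  obtain ⟨u0, hu0⟩ := hK u
  obtain ⟨v0, hv0⟩ := hK v
  obtain ⟨m1, hm1, a, ha⟩ := clear_int u0
  obtain ⟨m2, hm2, b, hb⟩ := clear_int v0
  have hu1 : aeval θ u0 = algebraMap K L u := by rw [hθQ, hu0]
  have hv1 : aeval θ v0 = algebraMap K L v := by rw [hθQ, hv0]
  set N : ℤ := m1 * m2 with hN
  have hN0 : N ≠ 0 := mul_ne_zero hm1 hm2
  have hNL : (N : L) ≠ 0 := Int.cast_ne_zero.2 hN0
  set β : L := (N : L) * β0 with hβ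
  have hint : ∀ (F : ℤ[X]) (m : ℤ) (x : L), aeval x (C m * F) = (m : L) * aeval x F := by
    intro F m x
    rw [map_mul, aeval_C]
    rfl
  have hβe : β = aeval θ (C m2 * a) + aeval θ (C m1 * b) * s := by
    rw [hint, hint, ha, hb, hu1, hv1, hβ, hge, hN]
    push_cast
    ring
  have hgen : ∀ x : L, ∃ m : ℤ, m ≠ 0 ∧ ∃ φ : ℤ[X], (m : L) * x = aeval β φ := by
    intro x
    obtain ⟨G, hG⟩ := pb.exists_eq_aeval' x
    obtain ⟨m, hm, φ, hφ⟩ := clear_int (G.comp (C ((N : ℚ)⁻¹) * X))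
    refine ⟨m, hm, φ, ?_⟩
    rw [hφ, aeval_comp, map_mul, aeval_C, aeval_X]
    have e1 : (algebraMap ℚ L) ((N : ℚ)⁻¹) * β = pb.gen := by
      rw [map_inv₀, map_intCast, hβ, ← hβ0, inv_mul_cancel_left₀ hNL]
    rw [e1, ← hG]
  obtain ⟨n1, hn1, φ, hφ⟩ := hgen θ
  obtain ⟨n2, hn2, ψ, hψ⟩ := hgen s
  obtain ⟨m3, hm3, M, hM⟩ := clear_den (minpoly ℚ β)
  have hintg : IsIntegral ℚ β := IsIntegral.of_finite ℚ β
  refine ⟨θ, β, C m2 * a, C m1 * b, M, C n2 * φ, C n1 * ψ,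
    n1 * n2, mul_ne_zero hn1 hn2, ?_, ?_, ?_, hβe, ?_, ?_, ?_, ?_⟩
  · rw [hθF, hρ, map_zero]
  · rw [hθF, hs]
  · intro a b hab
    rw [hθF, hθF] at hab
    rw [hθF]
    generalize aeval ρ (a.map (Int.castRingHom ℚ)) = α at *
    generalize aeval ρ (b.map (Int.castRingHom ℚ)) = γ at *
    by_contra hα
    apply hns
    refine ⟨γ / α, hinj ?_⟩
    rw [← hs, map_mul, map_div₀]
    have h2 : s = -(algebraMap K L γ / algebraMap K L α) := by
      field_simp
      linear_combination hab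
    rw [h2]
    ring
  · rw [hM]
    have h3 : IsUnit (C (m3 : ℚ)) := isUnit_C.2 (IsUnit.mk0 _ (by exact_mod_cast hm3))
    exact (irreducible_isUnit_mul h3).2 (minpoly.irreducible hintg)
  · rw [← aeval_map_Q, hM, map_mul, minpoly.aeval, mul_zero]
  · rw [hint, ← hφ]
    push_cast
    ring
  · rw [hint, ← hψ]
    push_cast
    ring

/-- the quadratic extension of the field of a root -/
lemma ext_mid {K : Type} [Field K] [Algebra ℚ K] [Module.Finite ℚ K] (ρ : K) (P h : ℤ[X])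
    (hρ : aeval ρ (P.map (Int.castRingHom ℚ)) = 0) (hK : ∀ x : K, ∃ u : ℚ[X], aeval ρ u = x)
    (hns : ¬ IsSquare (aeval ρ (h.map (Int.castRingHom ℚ)))) :
    ∃ (L : Type) (_ : Field L) (_ : Algebra ℚ L) (s θ β : L) (a b M φ ψ : ℤ[X]) (n : ℤ),
      n ≠ 0 ∧ aeval θ P = 0 ∧ s ^ 2 = aeval θ h ∧
      (∀ a b : ℤ[X], aeval θ a * s + aeval θ b = 0 → aeval θ a = 0) ∧
      β = aeval θ a + aeval θ b * s ∧ Irreducible (M.map (Int.castRingHom ℚ)) ∧
      aeval β M = 0 ∧ (n : L) * θ = aeval β φ ∧ (n : L) * s = aeval β ψ := by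
  classical
  set δ : K := aeval ρ (h.map (Int.castRingHom ℚ)) with hδ
  set q : K[X] := X ^ 2 - C δ with hq
  have hqi : Irreducible q := X_pow_sub_C_irreducible_of_prime Nat.prime_two
    (fun b hb => hns ⟨b, by rw [← hb, sq]⟩)
  have : Fact (Irreducible q) := ⟨hqi⟩
  have hs2 : (AdjoinRoot.root q) ^ 2 = algebraMap K (AdjoinRoot q) δ := by
    have h1 := AdjoinRoot.eval₂_root q
    rw [hq, eval₂_sub, eval₂_X_pow, eval₂_C, sub_eq_zero] at h1
    exact h1
  have : Module.Finite K (AdjoinRoot q) := (AdjoinRoot.powerBasis hqi.ne_zero).finite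
  have hc1 : CharZero K := algebraRat.charZero K
  have hc2 : CharZero (AdjoinRoot q) :=
    charZero_of_injective_algebraMap (algebraMap K (AdjoinRoot q)).injective
  have htow : @IsScalarTower ℚ K (AdjoinRoot q) _ _
      (Algebra.toSMul (self := DivisionRing.toRatAlgebra)) := inferInstance
  have hfin : @Module.Finite ℚ (AdjoinRoot q) _ _ (DivisionRing.toRatAlgebra).toModule :=
    Module.Finite.trans K (AdjoinRoot q)
  have hmon : q.Monic := monic_X_pow_sub_C δ two_ne_zero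
  have key := @ext_abs K (AdjoinRoot q) _ _ _
    (DivisionRing.toRatAlgebra) _ htow hfin ρ (AdjoinRoot.root q) P h
    hρ hK hs2 hns
    (fun x => by
      obtain ⟨g, hg⟩ := AdjoinRoot.mk_surjective x
      have hdeg : (g %ₘ q).natDegree ≤ 1 := by
        have h1 := natDegree_modByMonic_lt g hmon (by
          intro h1
          have h2 := congrArg natDegree h1
          rw [hq, natDegree_X_pow_sub_C, natDegree_one] at h2
          omega)
        rw [hq, natDegree_X_pow_sub_C] at h1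
        rw [hq]
        omega
      refine ⟨(g %ₘ q).coeff 0, (g %ₘ q).coeff 1, ?_⟩
      have h1 : AdjoinRoot.mk q g = AdjoinRoot.mk q (g %ₘ q) := by
        conv_lhs => rw [← modByMonic_add_div g q]
        rw [map_add, map_mul, AdjoinRoot.mk_self, zero_mul, add_zero]
      rw [← hg, h1]
      conv_lhs => rw [eq_X_add_C_of_natDegree_le_one hdeg]
      rw [map_add, map_mul, AdjoinRoot.mk_C, AdjoinRoot.mk_C, AdjoinRoot.mk_X]
      rfl)
  exact ⟨AdjoinRoot q, inferInstance, DivisionRing.toRatAlgebra, AdjoinRoot.root q, key⟩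

lemma ext_exists (P h : ℤ[X]) (hP : Irreducible (P.map (Int.castRingHom ℚ)))
    (hns : ¬ IsSquare (AdjoinRoot.mk (P.map (Int.castRingHom ℚ)) (h.map (Int.castRingHom ℚ)))) :
    ∃ (L : Type) (_ : Field L) (_ : Algebra ℚ L) (s θ β : L) (a b M φ ψ : ℤ[X]) (n : ℤ),
      n ≠ 0 ∧ aeval θ P = 0 ∧ s ^ 2 = aeval θ h ∧
      (∀ a b : ℤ[X], aeval θ a * s + aeval θ b = 0 → aeval θ a = 0) ∧
      β = aeval θ a + aeval θ b * s ∧ Irreducible (M.map (Int.castRingHom ℚ)) ∧
      aeval β M = 0 ∧ (n : L) * θ = aeval β φ ∧ (n : L) * s = aeval β ψ := by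
  classical
  have : Fact (Irreducible (P.map (Int.castRingHom ℚ))) := ⟨hP⟩
  have hal : (AdjoinRoot.instAlgebra (P.map (Int.castRingHom ℚ)) :
      Algebra ℚ (AdjoinRoot (P.map (Int.castRingHom ℚ)))) = DivisionRing.toRatAlgebra :=
    Subsingleton.elim _ _
  have hfin : @Module.Finite ℚ (AdjoinRoot (P.map (Int.castRingHom ℚ))) _ _
      (AdjoinRoot.instAlgebra (P.map (Int.castRingHom ℚ))).toModule :=
    (AdjoinRoot.powerBasis hP.ne_zero).finite
  have hae : ∀ u : ℚ[X], @aeval ℚ (AdjoinRoot (P.map (Int.castRingHom ℚ))) _ _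
      (AdjoinRoot.instAlgebra (P.map (Int.castRingHom ℚ)))
      (AdjoinRoot.root (P.map (Int.castRingHom ℚ))) u =
        AdjoinRoot.mk (P.map (Int.castRingHom ℚ)) u := fun u => AdjoinRoot.aeval_eq u
  refine @ext_mid (AdjoinRoot (P.map (Int.castRingHom ℚ))) _
    (AdjoinRoot.instAlgebra (P.map (Int.castRingHom ℚ))) hfin
    (AdjoinRoot.root (P.map (Int.castRingHom ℚ))) P h ?_ ?_ ?_
  · rw [hae]
    exact AdjoinRoot.mk_self
  · intro x
    obtain ⟨u, hu⟩ := AdjoinRoot.mk_surjective x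
    exact ⟨u, by rw [hae, hu]⟩
  · rw [hae]
    exact hns

end Pool.Agent.L0h5.MR
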