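import Pool.Agent.L0h5.MR.Split

/-!
# Roots modulo primes at which a given value is a square, the count
-/

set_option autoImplicit false

namespace Pool.Agent.L0h5.MR

open Finset Polynomial Pool.Agent.L0h5.TF

lemma aeval_scale {R : Type} [CommRing R] (P : ℤ[X]) (n : ℤ) (x : R) :
    aeval ((n : R) * x) (scaleRoots P n) = (n : R) ^ P.natDegree * aeval x P :=
  scaleRoots_eval₂_mul (algebraMap ℤ R) x n

lemma aeval_CZ {R : Type} [CommRing R] (n : ℤ) (x : R) : aeval x (C n : ℤ[X]) = (n : R) := by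
  rw [aeval_C]
  rfl

lemma aeval_eq_eval {p : ℕ} (P : ℤ[X]) (x : ZMod p) :
    aeval x P = (P.map (Int.castRingHom (ZMod p))).eval x := by
  rw [eval_map]
  rfl

lemma split_bij (P h : ℤ[X]) (hP : Irreducible (P.map (Int.castRingHom ℚ)))
    (hns : ¬ IsSquare (AdjoinRoot.mk (P.map (Int.castRingHom ℚ)) (h.map (Int.castRingHom ℚ)))) :
    ∃ M : ℤ[X], Irreducible (M.map (Int.castRingHom ℚ)) ∧ ∃ z0 : ℕ, ∀ p : ℕ, p.Prime → z0 < p →
      Nat.card {r : ZMod p // aeval r M = 0} =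
        Nat.card {r : ZMod p × ZMod p // aeval r.1 P = 0 ∧ r.2 ^ 2 = aeval r.1 h} := by
  classical
  obtain ⟨L, _, _, s, θ, β, a, b, M, φ, ψ, n, hn, hθ, hs, hlin, hβ, hM, hMβ, hφ, hψ⟩ :=
    ext_exists P h hP hns
  refine ⟨M, hM, ?_⟩
  obtain ⟨z1, hz1⟩ := V2 (G := aeval (C a + C b * X : ℤ[X][X]) M) hP hθ hs hlin (by
    rw [ev_aeval, map_add, map_mul, ev_C, ev_C, ev_X, ← hβ, hMβ])
  obtain ⟨z2, hz2⟩ := V2 (G := aeval (C a + C b * X : ℤ[X][X]) φ - C (C n) * C X) hP hθ hs hlin (by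
    rw [map_sub, ev_aeval, map_add, map_mul, map_mul, ev_C, ev_C, ev_X, ev_C, ev_C, aeval_CZ,
      aeval_X, ← hβ, hφ, sub_self])
  obtain ⟨z3, hz3⟩ := V2 (G := aeval (C a + C b * X : ℤ[X][X]) ψ - C (C n) * X) hP hθ hs hlin (by
    rw [map_sub, ev_aeval, map_add, map_mul, map_mul, ev_C, ev_C, ev_X, ev_C, aeval_CZ,
      ← hβ, hψ, sub_self])
  obtain ⟨z4, hz4⟩ := V1' (G := (scaleRoots P n).comp φ) hM hMβ (by
    rw [aeval_comp, ← hφ, aeval_scale, hθ, mul_zero])
  obtain ⟨z5, hz5⟩ := V1' (G := C n ^ h.natDegree * ψ ^ 2 - C n ^ 2 * (scaleRoots h n).comp φ)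
    hM hMβ (by
      rw [map_sub, map_mul, map_mul, map_pow, map_pow, map_pow, aeval_comp, ← hφ, ← hψ,
        aeval_scale, aeval_CZ, ← hs]
      ring)
  obtain ⟨z6, hz6⟩ := V1' (G := C n ^ (a.natDegree + b.natDegree + 1) * X -
      C n ^ (b.natDegree + 1) * (scaleRoots a n).comp φ -
      C n ^ a.natDegree * (scaleRoots b n).comp φ * ψ) hM hMβ (by
      rw [map_sub, map_sub, map_mul, map_mul, map_mul, map_mul, map_pow, map_pow, map_pow,
        aeval_comp, aeval_comp, ← hφ, ← hψ, aeval_scale, aeval_scale, aeval_CZ, aeval_X, hβ]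
      ring)
  refine ⟨n.natAbs + z1 + z2 + z3 + z4 + z5 + z6, fun p hp hz => ?_⟩
  have : Fact p.Prime := ⟨hp⟩
  have hnp : (n : ZMod p) ≠ 0 := by
    rw [Ne, ZMod.intCast_zmod_eq_zero_iff_dvd]
    intro hd
    have := Nat.le_of_dvd (Int.natAbs_pos.2 hn) (Int.natCast_dvd.1 hd)
    omega
  symm
  have hev : ∀ (r w : ZMod p) (F : ℤ[X]), ev r w (aeval (C a + C b * X : ℤ[X][X]) F) =
      aeval (aeval r a + aeval r b * w) F := by
    intro r w F
    rw [ev_aeval, map_add, map_mul, ev_C, ev_C, ev_X]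
  refine Nat.card_congr ⟨fun r => ⟨aeval r.1.1 a + aeval r.1.1 b * r.1.2, ?_⟩,
    fun y => ⟨((n : ZMod p)⁻¹ * aeval y.1 φ, (n : ZMod p)⁻¹ * aeval y.1 ψ), ?_, ?_⟩, ?_, ?_⟩
  · have h1 := hz1 p hp (by omega) r.1.1 r.1.2 r.2.1 r.2.2
    rwa [hev] at h1
  · have h1 := hz4 p hp (by omega) y.1 y.2
    rw [aeval_comp] at h1
    have h2 := aeval_scale P n ((n : ZMod p)⁻¹ * aeval y.1 φ)
    rw [mul_inv_cancel_left₀ hnp, h1] at h2
    exact (mul_eq_zero.1 h2.symm).resolve_left (pow_ne_zero _ hnp)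
  · have h1 := hz5 p hp (by omega) y.1 y.2
    have h2 := aeval_scale h n ((n : ZMod p)⁻¹ * aeval y.1 φ)
    rw [mul_inv_cancel_left₀ hnp] at h2
    rw [map_sub, map_mul, map_mul, map_pow, map_pow, map_pow, aeval_comp, aeval_CZ, h2] at h1
    have h3 : (n : ZMod p) ^ (h.natDegree + 2) ≠ 0 := pow_ne_zero _ hnp
    apply mul_left_cancel₀ h3
    have h4 : (n : ZMod p) ^ (h.natDegree + 2) * ((n : ZMod p)⁻¹ * aeval y.1 ψ) ^ 2 =
        (n : ZMod p) ^ h.natDegree * aeval y.1 ψ ^ 2 := by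
      field_simp
      ring
    rw [h4]
    linear_combination h1
  · rintro ⟨⟨r, w⟩, hr, hw⟩
    have h2 := hz2 p hp (by omega) r w hr hw
    have h3 := hz3 p hp (by omega) r w hr hw
    rw [map_sub, hev, map_mul, ev_C, ev_C, aeval_CZ, aeval_X, sub_eq_zero] at h2
    rw [map_sub, hev, map_mul, ev_C, ev_X, aeval_CZ, sub_eq_zero] at h3
    apply Subtype.ext
    apply Prod.ext
    · simp only
      rw [h2, inv_mul_cancel_left₀ hnp]
    · simp only
      rw [h3, inv_mul_cancel_left₀ hnp]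
  · rintro ⟨y, hy⟩
    apply Subtype.ext
    simp only
    have h1 := hz6 p hp (by omega) y hy
    have h2 := aeval_scale a n ((n : ZMod p)⁻¹ * aeval y φ)
    have h3 := aeval_scale b n ((n : ZMod p)⁻¹ * aeval y φ)
    rw [mul_inv_cancel_left₀ hnp] at h2 h3
    rw [map_sub, map_sub, map_mul, map_mul, map_mul, map_mul, map_pow, map_pow, map_pow,
      aeval_comp, aeval_comp, aeval_CZ, aeval_X, h2, h3] at h1
    have h4 : (n : ZMod p) ^ (a.natDegree + b.natDegree + 1) ≠ 0 := pow_ne_zero _ hnp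
    apply mul_left_cancel₀ h4
    have h5 : (n : ZMod p) ^ (a.natDegree + b.natDegree + 1) *
        (aeval ((n : ZMod p)⁻¹ * aeval y φ) a +
          aeval ((n : ZMod p)⁻¹ * aeval y φ) b * ((n : ZMod p)⁻¹ * aeval y ψ)) =
        (n : ZMod p) ^ (b.natDegree + 1) * ((n : ZMod p) ^ a.natDegree *
          aeval ((n : ZMod p)⁻¹ * aeval y φ) a) +
        (n : ZMod p) ^ a.natDegree * ((n : ZMod p) ^ b.natDegree *
          aeval ((n : ZMod p)⁻¹ * aeval y φ) b) * aeval y ψ := by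
      rw [pow_succ]
      field_simp
      ring
    rw [h5]
    linear_combination -h1

lemma card_pairs (p : ℕ) [Fact p.Prime] (hp2 : p ≠ 2) (P h : ℤ[X])
    (hc : ∀ r : ℤ, (p : ℤ) ∣ P.eval r → ¬ (p : ℤ) ∣ h.eval r) :
    Nat.card {r : ZMod p × ZMod p // aeval r.1 P = 0 ∧ r.2 ^ 2 = aeval r.1 h} =
      ∑ r ∈ rts P p, if jacobiSym (h.eval (r : ℤ)) p = 1 then 2 else 0 := by
  classical
  have hp : p.Prime := Fact.out
  have : NeZero p := ⟨hp.ne_zero⟩
  rw [Nat.card_eq_fintype_card, Fintype.card_subtype]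
  rw [card_eq_sum_card_fiberwise (f := fun r : ZMod p × ZMod p => r.1.val) (t := rts P p)]
  · refine sum_congr rfl fun r hr => ?_
    unfold rts at hr
    rw [mem_filter, mem_range] at hr
    have hrv : ((r : ZMod p)).val = r := ZMod.val_cast_of_lt hr.1
    have hev : ∀ F : ℤ[X], aeval (r : ZMod p) F = ((F.eval (r : ℤ) : ℤ) : ZMod p) := by
      intro F
      rw [aeval_eq_eval]
      have h := eval_cast F p (r : ℤ)
      rwa [Int.cast_natCast] at h
    have h0 : aeval (r : ZMod p) P = 0 := by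
      rw [hev]
      exact (ZMod.intCast_zmod_eq_zero_iff_dvd _ _).2 hr.2
    have hh0 : (((h.eval (r : ℤ) : ℤ)) : ZMod p) ≠ 0 := by
      rw [Ne, ZMod.intCast_zmod_eq_zero_iff_dvd]
      exact hc r hr.2
    have h1 : (((univ : Finset (ZMod p × ZMod p)).filter
        (fun r : ZMod p × ZMod p => aeval r.1 P = 0 ∧ r.2 ^ 2 = aeval r.1 h)).filter
        (fun i => i.1.val = r)).card = ({x : ZMod p | x ^ 2 = ((h.eval (r : ℤ) : ℤ) : ZMod p)}.toFinset).card := by
      refine card_bij (fun i _ => i.2) ?_ ?_ ?_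
      · rintro ⟨i1, i2⟩ hi
        rw [mem_filter, mem_filter] at hi
        obtain ⟨⟨_, h1, h2⟩, h3⟩ := hi
        simp only at h1 h2 h3 ⊢
        have h4 : i1 = (r : ZMod p) := by rw [← h3, ZMod.natCast_zmod_val]
        rw [Set.mem_toFinset, Set.mem_ofPred_eq, h2, h4, hev]
      · rintro ⟨i1, i2⟩ hi ⟨j1, j2⟩ hj hij
        rw [mem_filter] at hi hj
        have h4 : i1.val = j1.val := by
          have e1 := hi.2
          have e2 := hj.2
          simp only at e1 e2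
          rw [e1, e2]
        have h5 := ZMod.val_injective p h4
        simp only at hij
        rw [h5, hij]
      · intro x hx
        rw [Set.mem_toFinset, Set.mem_ofPred_eq] at hx
        refine ⟨((r : ZMod p), x), ?_, rfl⟩
        rw [mem_filter, mem_filter]
        refine ⟨⟨mem_univ _, h0, ?_⟩, hrv⟩
        simp only
        rw [hx, hev]
    rw [h1]
    have hrc : ringChar (ZMod p) ≠ 2 := by
      rw [ZMod.ringChar_zmod_n]
      exact hp2
    have h2 := quadraticChar_card_sqrts hrc ((h.eval (r : ℤ) : ℤ) : ZMod p)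
    have h3 : jacobiSym (h.eval (r : ℤ)) p = quadraticChar (ZMod p) ((h.eval (r : ℤ) : ℤ) : ZMod p) := by
      rw [← jacobiSym.legendreSym.to_jacobiSym]
      rfl
    rw [← h3] at h2
    have h4 : jacobiSym (h.eval (r : ℤ)) p = 1 ∨ jacobiSym (h.eval (r : ℤ)) p = -1 := by
      rw [h3]
      exact quadraticChar_dichotomy hh0
    rcases h4 with h4 | h4
    · rw [if_pos h4]
      rw [h4] at h2
      exact_mod_cast h2
    · rw [if_neg (by rw [h4]; norm_num)]
      rw [h4] at h2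
      have : ((({x : ZMod p | x ^ 2 = ((h.eval (r : ℤ) : ℤ) : ZMod p)}.toFinset).card : ℕ) : ℤ) = 0 := by
        linarith
      exact_mod_cast this
  · intro i hi
    rw [mem_coe, mem_filter] at hi
    rw [mem_coe]
    unfold rts
    rw [mem_filter, mem_range]
    refine ⟨ZMod.val_lt _, ?_⟩
    rw [← ZMod.intCast_zmod_eq_zero_iff_dvd, ← eval_cast, ← aeval_eq_eval, Int.cast_natCast,
      ZMod.natCast_zmod_val]
    exact hi.2.1

/-- **The roots at which the value is a square** -/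
theorem split (P h : ℤ[X]) (hP : Irreducible (P.map (Int.castRingHom ℚ)))
    (hns : ¬ IsSquare (AdjoinRoot.mk (P.map (Int.castRingHom ℚ)) (h.map (Int.castRingHom ℚ)))) :
    ∃ M : ℤ[X], Irreducible (M.map (Int.castRingHom ℚ)) ∧ ∃ z0 : ℕ, ∀ p : ℕ, p.Prime → z0 < p →
      rho M p = ∑ r ∈ rts P p, if jacobiSym (h.eval (r : ℤ)) p = 1 then 2 else 0 := by
  obtain ⟨M, hM, z1, hz1⟩ := split_bij P h hP hns
  have hcop : IsCoprime (P.map (Int.castRingHom ℚ)) (h.map (Int.castRingHom ℚ)) := by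
    rw [hP.coprime_iff_not_dvd]
    intro hd
    apply hns
    rw [AdjoinRoot.mk_eq_zero.2 hd]
    exact IsSquare.zero
  obtain ⟨z2, hz2⟩ := bez_bound hcop
  refine ⟨M, hM, z1 + z2 + 2, fun p hp hz => ?_⟩
  have : Fact p.Prime := ⟨hp⟩
  rw [rho_eq, ← card_pairs p (by omega) P h (hz2 p hp (by omega)), ← hz1 p hp (by omega)]
  refine Nat.card_congr (Equiv.subtypeEquivRight fun r => ?_)
  rw [aeval_eq_eval]

end Pool.Agent.L0h5.MR
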